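import Mathlib

set_option autoImplicit false

namespace Pool.Agent.Results.MP_e17bc1_co.UpperBound

/-- squares of the `n × n` board -/
abbrev Sq (n : ℕ) := Fin n × Fin n

/-- the queens graph `Q_n` -/
def queens (n : ℕ) : SimpleGraph (Sq n) where
  Adj a b := a ≠ b ∧ (a.1 = b.1 ∨ a.2 = b.2 ∨
    ((a.1 : ℕ) : ℤ) - ((a.2 : ℕ) : ℤ) = ((b.1 : ℕ) : ℤ) - ((b.2 : ℕ) : ℤ) ∨
    ((a.1 : ℕ) : ℤ) + ((a.2 : ℕ) : ℤ) = ((b.1 : ℕ) : ℤ) + ((b.2 : ℕ) : ℤ))
  symm := ⟨by
    rintro a b ⟨h, h'⟩
    refine ⟨h.symm, ?_⟩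
    rcases h' with h' | h' | h' | h'
    · exact Or.inl h'.symm
    · exact Or.inr (Or.inl h'.symm)
    · exact Or.inr (Or.inr (Or.inl h'.symm))
    · exact Or.inr (Or.inr (Or.inr h'.symm))⟩
  loopless := ⟨by rintro a ⟨h, -⟩; exact h rfl⟩

/-- closed neighbourhood of a vertex -/
def closedNbhd {V : Type} (G : SimpleGraph V) (v : V) : Set V := {u | u = v ∨ G.Adj v u}

/-- closed neighbourhood of a set of vertices -/
def closedNbhdSet {V : Type} (G : SimpleGraph V) (S : Set V) : Set V := ⋃ u ∈ S, closedNbhd G u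

/-- `S` is irredundant: each `v ∈ S` has a private neighbour -/
def Irredundant {V : Type} (G : SimpleGraph V) (S : Finset V) : Prop :=
  ∀ v ∈ S, (closedNbhd G v \ closedNbhdSet G ((S : Set V) \ {v})).Nonempty

/-- upper irredundance number -/
noncomputable def IR {V : Type} (G : SimpleGraph V) : ℕ :=
  sSup {k | ∃ S : Finset V, Irredundant G S ∧ S.card = k}

/-- labels of the four lines through a square -/
def lab (n : ℕ) (k : Fin 4) (v : Sq n) : ℕ :=
  if k = 0 then v.1 else
  if k = 1 then n + v.2 else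
  if k = 2 then 2 * n + (v.1 + (n - 1 - v.2)) else 4 * n - 1 + (v.1 + v.2)

lemma adj_iff (n : ℕ) (a b : Sq n) : (queens n).Adj a b ↔ a ≠ b ∧ ∃ k, lab n k a = lab n k b := by
  have ha1 := a.1.2
  have ha2 := a.2.2
  have hb1 := b.1.2
  have hb2 := b.2.2
  constructor
  · rintro ⟨h, h'⟩
    refine ⟨h, ?_⟩
    rcases h' with h' | h' | h' | h'
    · exact ⟨0, by simp [lab, h']⟩
    · exact ⟨1, by simp [lab, h']⟩
    · refine ⟨2, ?_⟩
      simp only [lab]
      simp
      omega
    · refine ⟨3, ?_⟩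
      simp only [lab]
      simp
      omega
  · rintro ⟨h, k, hk⟩
    refine ⟨h, ?_⟩
    fin_cases k
    · left
      simp [lab] at hk
      exact Fin.ext hk
    · right; left
      simp [lab] at hk
      exact Fin.ext hk
    · right; right; left
      simp [lab] at hk
      omega
    · right; right; right
      simp [lab] at hk
      omega

/-- every vertex of an irredundant set has a line met by the set in that vertex only; this line
contains a second square, or it is a row -/
lemma private_line (n : ℕ) (S : Finset (Sq n)) (hS : Irredundant (queens n) S) (v : Sq n)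
    (hv : v ∈ S) : ∃ k : Fin 4, (∀ s ∈ S, lab n k s = lab n k v → s = v) ∧
      (k = 0 ∨ ∃ u, u ≠ v ∧ lab n k u = lab n k v) := by
  obtain ⟨u, hu, hu'⟩ := hS v hv
  have hpriv : ∀ s ∈ S, s ≠ v → u ≠ s ∧ ¬ (queens n).Adj s u := by
    intro s hs hsv
    constructor
    · intro h
      apply hu'
      simp only [closedNbhdSet, Set.mem_iUnion]
      exact ⟨s, ⟨hs, hsv⟩, Or.inl h⟩
    · intro h
      apply hu'
      simp only [closedNbhdSet, Set.mem_iUnion]
      exact ⟨s, ⟨hs, hsv⟩, Or.inr h⟩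
  rcases hu with rfl | hadj
  · -- `v` is isolated in `S`
    refine ⟨0, ?_, Or.inl rfl⟩
    intro s hs hl
    by_contra hne
    apply (hpriv s hs hne).2
    rw [adj_iff]
    exact ⟨hne, 0, hl⟩
  · rw [adj_iff] at hadj
    obtain ⟨hvu, k, hk⟩ := hadj
    refine ⟨k, ?_, Or.inr ⟨u, hvu.symm, hk.symm⟩⟩
    intro s hs hl
    by_contra hne
    have h1 := hpriv s hs hne
    apply h1.2
    rw [adj_iff]
    exact ⟨fun h => h1.1 h.symm, k, hl.trans hk⟩

/-- the set of labels of lines which can be private -/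
def labels (n : ℕ) : Finset ℕ := Finset.range (6 * n - 2) \ {2 * n, 4 * n - 2, 4 * n - 1, 6 * n - 3}

lemma card_labels (n : ℕ) (hn : 2 ≤ n) : (labels n).card = 6 * n - 6 := by
  unfold labels
  rw [Finset.card_sdiff_of_subset]
  · rw [Finset.card_range]
    have : ({2 * n, 4 * n - 2, 4 * n - 1, 6 * n - 3} : Finset ℕ).card = 4 := by
      rw [Finset.card_insert_of_notMem, Finset.card_insert_of_notMem, Finset.card_insert_of_notMem,
        Finset.card_singleton]
      · simp; omega
      · simp; omega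
      · simp; omega
    rw [this]
    omega
  · intro x hx
    simp at hx ⊢
    omega

theorem card_le (n : ℕ) (hn : 2 ≤ n) (S : Finset (Sq n)) (hS : Irredundant (queens n) S) :
    S.card ≤ 6 * n - 6 := by
  classical
  have h := private_line n S hS
  choose! k hk1 hk2 using h
  rw [← card_labels n hn]
  apply Finset.card_le_card_of_injOn (fun v => lab n (k v) v)
  · intro v hv
    have hv' : v ∈ S := hv
    have h2 := hk2 v hv'
    have hv1 := v.1.2
    have hv2 := v.2.2
    simp only [labels, Finset.coe_sdiff, Set.mem_sdiff, Finset.mem_coe, Finset.mem_range]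
    generalize k v = j at h2 ⊢
    fin_cases j
    · simp [lab]
      omega
    · simp [lab]
      omega
    · rcases h2 with h2 | ⟨u, hu, hl⟩
      · simp at h2
      · have hu1 := u.1.2
        have hu2 := u.2.2
        have hne : ¬ ((u.1 : ℕ) = v.1 ∧ (u.2 : ℕ) = v.2) := by
          rintro ⟨h3, h4⟩
          exact hu (Prod.ext (Fin.ext h3) (Fin.ext h4))
        simp [lab] at hl ⊢
        omega
    · rcases h2 with h2 | ⟨u, hu, hl⟩
      · simp at h2
      · have hu1 := u.1.2
        have hu2 := u.2.2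
        have hne : ¬ ((u.1 : ℕ) = v.1 ∧ (u.2 : ℕ) = v.2) := by
          rintro ⟨h3, h4⟩
          exact hu (Prod.ext (Fin.ext h3) (Fin.ext h4))
        simp [lab] at hl ⊢
        omega
  · intro v hv w hw hvw
    have hv' : v ∈ S := hv
    have hw' : w ∈ S := hw
    have h1 := hk1 v hv' w hw'
    have hv1 := v.1.2
    have hv2 := v.2.2
    have hw1 := w.1.2
    have hw2 := w.2.2
    have hkk : k v = k w := by
      have hvw' : lab n (k v) v = lab n (k w) w := hvw
      generalize k v = i at hvw' ⊢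
      generalize k w = j at hvw' ⊢
      fin_cases i <;> fin_cases j <;> simp [lab] at hvw' ⊢ <;> omega
    apply (h1 _).symm
    have hvw' : lab n (k v) v = lab n (k w) w := hvw
    rw [hvw', hkk]

theorem card_le' (n : ℕ) (S : Finset (Sq n)) (hS : Irredundant (queens n) S) :
    S.card ≤ 6 * n := by
  rcases Nat.lt_or_ge n 2 with hn | hn
  · have h1 : S.card ≤ Fintype.card (Sq n) := Finset.card_le_univ S
    rw [Fintype.card_prod, Fintype.card_fin] at h1
    have : n * n ≤ 6 * n := by nlinarith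
    omega
  · have := card_le n hn S hS
    omega

lemma IR_le (n B : ℕ) (h : ∀ S : Finset (Sq n), Irredundant (queens n) S → S.card ≤ B) :
    IR (queens n) ≤ B := by
  unfold IR
  apply csSup_le'
  rintro k ⟨S, hS, rfl⟩
  exact h S hS

lemma IR_isGreatest (n : ℕ) :
    IsGreatest {k | ∃ S : Finset (Sq n), Irredundant (queens n) S ∧ S.card = k} (IR (queens n)) := by
  have hb : BddAbove {k | ∃ S : Finset (Sq n), Irredundant (queens n) S ∧ S.card = k} := by
    refine ⟨6 * n, ?_⟩
    rintro k ⟨S, hS, rfl⟩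
    exact card_le' n S hS
  have hne : {k | ∃ S : Finset (Sq n), Irredundant (queens n) S ∧ S.card = k}.Nonempty :=
    ⟨0, ∅, by intro v hv; simp at hv, rfl⟩
  exact ⟨Nat.sSup_mem hne hb, fun k hk => le_csSup hb hk⟩

/-- `IR(Q_n) ≤ 6n + C n^{2/3}` (with `C = 0`), and indeed `IR(Q_n) ≤ 6n - 6` for `n ≥ 2`. -/
theorem result :
    (∃ C : ℝ, ∀ n : ℕ, 1 ≤ n → (IR (queens n) : ℝ) ≤ 6 * n + C * (n : ℝ) ^ ((2 : ℝ) / 3)) ∧
    (∀ n : ℕ, 2 ≤ n → ∀ S : Finset (Sq n), Irredundant (queens n) S → S.card ≤ 6 * n - 6) ∧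
    (∀ n : ℕ, 2 ≤ n → IR (queens n) ≤ 6 * n - 6) ∧
    (∀ n : ℕ, IsGreatest {k | ∃ S : Finset (Sq n), Irredundant (queens n) S ∧ S.card = k}
      (IR (queens n))) := by
  refine ⟨⟨0, ?_⟩, card_le, fun n hn => IR_le n _ (card_le n hn), IR_isGreatest⟩
  intro n _
  have h := IR_le n (6 * n) (card_le' n)
  have h' : (IR (queens n) : ℝ) ≤ ((6 * n : ℕ) : ℝ) := by exact_mod_cast h
  push_cast at h'
  linarith

end Pool.Agent.Results.MP_e17bc1_co.UpperBound
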